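import Mathlib

set_option autoImplicit false

namespace Run7.h468.TIG

open Topology
open scoped Pointwise

/-- Jordan: a proper subgroup of finite index does not meet every conjugacy class. -/
theorem jordan {Q : Type*} [Group Q] (O : Subgroup Q) [O.FiniteIndex]
    (h : ∀ x : Q, ∃ g : Q, g * x * g⁻¹ ∈ O) : O = ⊤ := by
  classical
  have hfin : Finite (Q ⧸ O) := Subgroup.finite_quotient_of_finiteIndex
  have _ : Fintype (Q ⧸ O) := Fintype.ofFinite _
  set H : Q ⧸ O → Subgroup Q := fun q => O.map (MulAut.conj (Quotient.out q)).toMonoidHom with hH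
  have hidx : ∀ q, (H q).index = O.index := by
    intro q
    exact Subgroup.index_map_equiv O (MulAut.conj (Quotient.out q))
  have hcov : ⋃ q ∈ (Finset.univ : Finset (Q ⧸ O)), (1 : Q) • (H q : Set Q) = Set.univ := by
    rw [Set.eq_univ_iff_forall]
    intro x
    obtain ⟨g, hg⟩ := h x
    simp only [one_smul, Set.mem_iUnion]
    refine ⟨QuotientGroup.mk g⁻¹, Finset.mem_univ _, ?_⟩
    obtain ⟨o, ho⟩ := QuotientGroup.mk_out_eq_mul O g⁻¹
    rw [hH, SetLike.mem_coe, Subgroup.mem_map]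
    refine ⟨(o : Q)⁻¹ * (g * x * g⁻¹) * o, O.mul_mem (O.mul_mem (O.inv_mem o.2) hg) o.2, ?_⟩
    show (Quotient.out (QuotientGroup.mk g⁻¹ : Q ⧸ O)) * _ * (Quotient.out (QuotientGroup.mk g⁻¹ : Q ⧸ O))⁻¹ = x
    have ho' : Quotient.out (QuotientGroup.mk g⁻¹ : Q ⧸ O) = g⁻¹ * o := ho
    rw [ho']
    group
  have hcard : (O.index : ℚ) = Fintype.card (Q ⧸ O) := by
    rw [Subgroup.index_eq_card, Nat.card_eq_fintype_card]
  have hpos : (0 : ℚ) < O.index := by
    exact_mod_cast Nat.pos_of_ne_zero Subgroup.FiniteIndex.index_ne_zero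
  have hsum : ∑ q ∈ (Finset.univ : Finset (Q ⧸ O)), ((H q).index : ℚ)⁻¹ = 1 := by
    simp only [hidx]
    rw [Finset.sum_const, Finset.card_univ, nsmul_eq_mul, ← hcard]
    exact mul_inv_cancel₀ hpos.ne'
  have hdis := Subgroup.pairwiseDisjoint_leftCoset_cover_of_sum_inv_index_eq_one hcov hsum
  have hone : ∀ q : Q ⧸ O, q = QuotientGroup.mk 1 := by
    intro q
    by_contra hne
    have hmem : ∀ q : Q ⧸ O, q ∈ ((Finset.univ : Finset (Q ⧸ O)).filter
        (fun i => (H i).FiniteIndex)) := by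
      intro q
      rw [Finset.mem_filter]
      refine ⟨Finset.mem_univ _, ⟨?_⟩⟩
      rw [hidx]
      exact Subgroup.FiniteIndex.index_ne_zero
    have h1 := hdis (hmem q) (hmem (QuotientGroup.mk 1)) hne
    have h2 : ∀ q, (1 : Q) ∈ (1 : Q) • (H q : Set Q) := by
      intro q
      rw [one_smul]
      exact (H q).one_mem
    exact Set.disjoint_left.1 h1 (h2 _) (h2 _)
  rw [eq_top_iff]
  intro x _
  have := hone (QuotientGroup.mk x)
  rw [QuotientGroup.eq] at this
  simpa using this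

/-- A closed subgroup of a profinite group meeting all conjugacy classes is everything. -/
theorem profinite_tig {Q : Type*} [Group Q] [TopologicalSpace Q] [IsTopologicalGroup Q]
    [CompactSpace Q] [TotallyDisconnectedSpace Q] (H : Subgroup Q) (hH : IsClosed (H : Set Q))
    (h : ∀ x : Q, ∃ g : Q, g * x * g⁻¹ ∈ H) : H = ⊤ := by
  have h1 := ProfiniteGrp.closedSubgroup_eq_sInf_open (⟨H, hH⟩ : ClosedSubgroup Q)
  have h2 : H = sInf {N : Subgroup Q | IsOpen (N : Set Q) ∧ H ≤ N} := h1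
  rw [h2, sInf_eq_top]
  rintro O ⟨hO, hHO⟩
  have : Finite (Q ⧸ O) := Subgroup.quotient_finite_of_isOpen O hO
  have : O.FiniteIndex := Subgroup.finiteIndex_of_finite_quotient
  exact jordan O fun x => (h x).imp fun g hg => hHO hg

/-- The easy direction. -/
theorem easy {G : Type*} [Group G] [TopologicalSpace G] [IsTopologicalGroup G] [CompactSpace G]
    (N : Subgroup G) (hN : N.Normal) (hab : ∀ a ∈ N, ∀ b ∈ N, a * b = b * a)
    (htd : TotallyDisconnectedSpace (G ⧸ N)) (H : Subgroup G) (hH : IsClosed (H : Set G))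
    (h : ∀ x : G, ∃ g : G, g * x * g⁻¹ ∈ H) : H = ⊤ := by
  have hc : IsClosed ((H.map (QuotientGroup.mk' N) : Subgroup (G ⧸ N)) : Set (G ⧸ N)) := by
    have : T1Space (G ⧸ N) := inferInstance
    have : T2Space (G ⧸ N) := inferInstance
    rw [Subgroup.coe_map]
    exact (hH.isCompact.image QuotientGroup.continuous_mk).isClosed
  have hmap : H.map (QuotientGroup.mk' N) = ⊤ := by
    refine profinite_tig _ hc ?_
    intro x
    obtain ⟨y, rfl⟩ := QuotientGroup.mk'_surjective N x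
    obtain ⟨g, hg⟩ := h y
    refine ⟨QuotientGroup.mk' N g, ?_⟩
    rw [← map_mul, ← map_inv, ← map_mul]
    exact Subgroup.mem_map_of_mem _ hg
  -- every element of G is h * n
  have hHN : ∀ y : G, ∃ k ∈ H, ∃ n ∈ N, y = k * n := by
    intro y
    have h1 : QuotientGroup.mk' N y ∈ H.map (QuotientGroup.mk' N) := by
      rw [hmap]; exact Subgroup.mem_top _
    obtain ⟨k, hk, hky⟩ := h1
    refine ⟨k, hk, k⁻¹ * y, ?_, by group⟩
    exact (QuotientGroup.eq (s := N)).1 hky
  have hNH : N ≤ H := by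
    intro x hx
    obtain ⟨g, hg⟩ := h x
    have hg2 : g * x * g⁻¹ ∈ N := hN.conj_mem x hx g
    -- x = g⁻¹ (g x g⁻¹) g
    obtain ⟨k, hk, n, hn, hgk⟩ := hHN g⁻¹
    have h3 : x = k * (g * x * g⁻¹) * k⁻¹ := by
      have h4 : x = g⁻¹ * (g * x * g⁻¹) * g := by group
      have h5 : g = n⁻¹ * k⁻¹ := by
        rw [← mul_inv_rev, ← hgk, inv_inv]
      have h6 : n * (g * x * g⁻¹) * n⁻¹ = g * x * g⁻¹ := by
        rw [hab n hn _ hg2]
        group
      calc x = g⁻¹ * (g * x * g⁻¹) * g := h4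
        _ = (k * n) * (g * x * g⁻¹) * (n⁻¹ * k⁻¹) := by rw [← hgk, ← h5]
        _ = k * (n * (g * x * g⁻¹) * n⁻¹) * k⁻¹ := by group
        _ = _ := by rw [h6]
    rw [h3]
    exact H.mul_mem (H.mul_mem hk hg) (H.inv_mem hk)
  rw [eq_top_iff]
  intro y _
  obtain ⟨k, hk, n, hn, rfl⟩ := hHN y
  exact H.mul_mem hk (hNH hn)

end Run7.h468.TIG
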