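import Pool.Agent.Run7.h468.TIG.Reg
import Pool.Agent.E8helper46.FL.ExpLie

set_option autoImplicit false

namespace Run7.h468.TIG

open scoped Matrix.Norms.Operator
open Pool.Agent.E8helper46.FL Filter Topology NormedSpace

variable {r : ℕ} {G : Type*} [Group G] [TopologicalSpace G]

/-- the representation with values in the units -/
noncomputable def phi (ρ : G →* Matrix.unitaryGroup (Fin r) ℂ) : G →* (MM r)ˣ :=
  (Unitary.toUnits).comp ρ

theorem phi_val (ρ : G →* Matrix.unitaryGroup (Fin r) ℂ) (x : G) :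
    ((phi ρ x : (MM r)ˣ) : MM r) = (ρ x : MM r) := rfl

theorem phi_inv (ρ : G →* Matrix.unitaryGroup (Fin r) ℂ) (x : G) :
    (((phi ρ x)⁻¹ : (MM r)ˣ) : MM r) = star (ρ x : MM r) := rfl

theorem phi_cont (ρ : G →* Matrix.unitaryGroup (Fin r) ℂ) (hρ : Continuous ρ) :
    Continuous (phi ρ) := by
  rw [Units.continuous_iff]
  have h1 : Continuous fun x => (ρ x : MM r) := continuous_subtype_val.comp hρ
  exact ⟨h1, h1.star⟩

theorem range_closed [CompactSpace G] (ρ : G →* Matrix.unitaryGroup (Fin r) ℂ)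
    (hρ : Continuous ρ) : IsClosed ((phi ρ).range : Set (MM r)ˣ) := by
  rw [MonoidHom.coe_range]
  exact (isCompact_range (phi_cont ρ hρ)).isClosed

/-- the Lie algebra of the image -/
noncomputable def lg0 [CompactSpace G] (ρ : G →* Matrix.unitaryGroup (Fin r) ℂ)
    (hρ : Continuous ρ) : Submodule ℝ (MM r) := lieAlg (phi ρ).range (range_closed ρ hρ)

section

variable [CompactSpace G] {ρ : G →* Matrix.unitaryGroup (Fin r) ℂ} {hρ : Continuous ρ}

theorem lg0_exp {X : MM r} (hX : X ∈ lg0 ρ hρ) (t : ℝ) :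
    ∃ x : G, (ρ x : MM r) = (ex (t • X) : (MM r)ˣ) ∧
      star (ρ x : MM r) = ((ex (t • X))⁻¹ : (MM r)ˣ) := by
  obtain ⟨x, hx⟩ := hX t
  refine ⟨x, ?_, ?_⟩
  · rw [← phi_val, hx]
  · rw [← phi_inv, hx]

/-- the star operation as a real linear map -/
noncomputable def starL (r : ℕ) : MM r →ₗ[ℝ] MM r where
  toFun := star
  map_add' := star_add
  map_smul' := by intro c X; rw [star_smul]; simp

theorem lg0_skew {X : MM r} (hX : X ∈ lg0 ρ hρ) : star X = -X := by
  have h1 := ex_deriv X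
  have h2 := (LinearMap.toContinuousLinearMap (starL r)).hasFDerivAt.comp_hasDerivAt (0 : ℝ) h1
  have h3 := ex_deriv (-X)
  refine h2.unique (h3.congr_of_eventuallyEq (Eventually.of_forall fun t => ?_))
  obtain ⟨x, hx1, hx2⟩ := lg0_exp hX t
  rw [← ex_neg, ← smul_neg] at hx2
  have h4 : star (ρ x : MM r) = star ((ex (t • X) : (MM r)ˣ) : MM r) := by rw [hx1]
  exact h4.symm.trans hx2

theorem lg0_conj {X : MM r} (hX : X ∈ lg0 ρ hρ) (x : G) :
    (ρ x : MM r) * X * star (ρ x : MM r) ∈ lg0 ρ hρ := by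
  have := conj_mem_lieAlg hX (u := phi ρ x) ⟨x, rfl⟩
  exact this

theorem lg0_conj' {X : MM r} (hX : X ∈ lg0 ρ hρ) (x : G) :
    star (ρ x : MM r) * X * (ρ x : MM r) ∈ lg0 ρ hρ := by
  have := conj_mem_lieAlg hX (u := (phi ρ x)⁻¹) ⟨x⁻¹, by rw [map_inv]⟩
  rw [inv_inv] at this
  exact this

theorem lg0_bracket {X Y : MM r} (hX : X ∈ lg0 ρ hρ) (hY : Y ∈ lg0 ρ hρ) :
    X * Y - Y * X ∈ lg0 ρ hρ := by
  refine bracket_mem _ (Submodule.closed_of_finiteDimensional _) X Y hY (Eventually.of_forall ?_)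
  intro t
  obtain ⟨x, hx1, hx2⟩ := lg0_exp hX t
  have h := lg0_conj hY x
  rw [hx2, hx1] at h
  exact h

theorem rho_star_mul (x : G) : star (ρ x : MM r) * (ρ x : MM r) = 1 :=
  Matrix.mem_unitaryGroup_iff'.1 (ρ x).2

theorem rho_mul_star (x : G) : (ρ x : MM r) * star (ρ x : MM r) = 1 :=
  Matrix.mem_unitaryGroup_iff.1 (ρ x).2

/-- Hunt's argument. -/
theorem hunt {X0 Y : MM r} (hX0 : X0 ∈ lg0 ρ hρ) (hY : Y ∈ lg0 ρ hρ) :
    ∃ x : G, ((ρ x : MM r) * Y * star (ρ x : MM r)) * X0 =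
      X0 * ((ρ x : MM r) * Y * star (ρ x : MM r)) := by
  have hcont : Continuous fun x : G => BB r ((ρ x : MM r) * Y * star (ρ x : MM r)) X0 := by
    have h1 : Continuous fun x => (ρ x : MM r) := continuous_subtype_val.comp hρ
    have h2 : Continuous fun x : G => (ρ x : MM r) * Y * star (ρ x : MM r) :=
      (h1.mul continuous_const).mul h1.star
    have h3 : Continuous fun Z : MM r => BB r Z X0 :=
      LinearMap.continuous_of_finiteDimensional ((BB r).flip X0)
    exact h3.comp h2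
  obtain ⟨x0, -, hx0⟩ := isCompact_univ.exists_isMaxOn Set.univ_nonempty hcont.continuousOn
  refine ⟨x0, ?_⟩
  set Y' := (ρ x0 : MM r) * Y * star (ρ x0 : MM r) with hY'
  have hY'm : Y' ∈ lg0 ρ hρ := lg0_conj hY x0
  have key : ∀ Z ∈ lg0 ρ hρ, BB r (Z * Y' - Y' * Z) X0 = 0 := by
    intro Z hZ
    have h1 := conj_deriv Z Y'
    have h3 := (LinearMap.toContinuousLinearMap ((BB r).flip X0)).hasFDerivAt.comp_hasDerivAt
        (0 : ℝ) h1
    refine IsLocalMax.hasDerivAt_eq_zero (Eventually.of_forall fun t => ?_) h3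
    have h4 : ∀ t : ℝ, ∃ x : G, BB r ((ρ x : MM r) * Y * star (ρ x : MM r)) X0 =
        ((LinearMap.toContinuousLinearMap ((BB r).flip X0)) ∘
          fun t : ℝ => exp (t • Z) * Y' * exp (-(t • Z))) t := by
      intro t
      obtain ⟨x, hx1, hx2⟩ := lg0_exp hZ t
      refine ⟨x * x0, ?_⟩
      have h5 : (ρ (x * x0) : MM r) = (ρ x : MM r) * (ρ x0 : MM r) := by
        rw [map_mul]; rfl
      have h6 : (ρ (x * x0) : MM r) * Y * star (ρ (x * x0) : MM r) =
          (ρ x : MM r) * Y' * star (ρ x : MM r) := by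
        rw [h5, star_mul, hY']
        simp only [← mul_assoc]
      rw [h6, hx2, hx1]
      rfl
    obtain ⟨x, hx⟩ := h4 t
    clear h4
    have h0 : ((LinearMap.toContinuousLinearMap ((BB r).flip X0)) ∘
          fun t : ℝ => exp (t • Z) * Y' * exp (-(t • Z))) 0 = BB r Y' X0 := by
      simp only [Function.comp_apply, zero_smul, neg_zero]
      have : (exp (0 : MM r) : MM r) = 1 := exp_zero
      show BB r (exp (0 : MM r) * Y' * exp (0 : MM r)) X0 = _
      rw [this, one_mul, mul_one]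
    have h7 := hx0 (Set.mem_univ x)
    simp only [Set.mem_setOf_eq] at h7
    rw [hx] at h7
    exact h7.trans (le_of_eq h0.symm)
  have h6 : Y' * X0 - X0 * Y' = 0 := by
    apply BB_def
    set Z := Y' * X0 - X0 * Y' with hZ
    have hZm : Z ∈ lg0 ρ hρ := lg0_bracket hY'm hX0
    have h7 := BB_inv (W := X0) (lg0_skew hZm) (lg0_skew hY'm)
    rw [key Z hZm] at h7
    exact h7
  exact sub_eq_zero.1 h6

end

end Run7.h468.TIG
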