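import Mathlib

set_option autoImplicit false

namespace Run7.h468.TIG

/-- A perfect Lie algebra graded by the circle with trivial degree-zero part vanishes. -/
theorem krek_aux {K L : Type*} [Field K] [LieRing L] [LieAlgebra K L] (S : Finset ℝ)
    (hS : ∀ θ ∈ S, 0 < θ ∧ θ < 1) (E : ℝ → Submodule K L)
    (hE0 : E 0 = ⊥) (hper : ∀ x, E (x + 1) = E x)
    (hout : ∀ θ, 0 < θ → θ < 1 → θ ∉ S → E θ = ⊥)
    (hbr : ∀ x y, ∀ u ∈ E x, ∀ v ∈ E y, ⁅u, v⁆ ∈ E (x + y))
    (hsup : (⨆ θ ∈ S, E θ) = ⊤)
    (hind : ∀ a ∈ S, Disjoint (E a) (⨆ θ ∈ S \ {a}, E θ))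
    (hperf : ∀ W : Submodule K L, (∀ x y : L, ⁅x, y⁆ ∈ W) → W = ⊤) :
    (⊤ : Submodule K L) = ⊥ := by
  classical
  have key : ∀ T : Finset ℝ, T ⊆ S → (∀ θ ∈ T, ∀ φ ∈ S, φ < θ → φ ∈ T) →
      LieSubalgebra.lieSpan K L (⋃ θ ∈ S \ T, (E θ : Set L)) = ⊤ := by
    intro T
    induction T using Finset.induction_on_max with
    | empty =>
      intro _ _
      rw [← LieSubalgebra.toSubmodule_inj, LieSubalgebra.top_toSubmodule, eq_top_iff, ← hsup]
      refine iSup₂_le fun θ hθ x hx => ?_
      apply LieSubalgebra.subset_lieSpan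
      simp only [Set.mem_iUnion]
      exact ⟨θ, by simpa using hθ, hx⟩
    | insert a T haT ih =>
      intro hTS hlow
      have haS : a ∈ S := hTS (Finset.mem_insert_self a T)
      obtain ⟨ha0, ha1⟩ := hS a haS
      have hG := ih (fun x hx => hTS (Finset.mem_insert_of_mem hx)) (fun θ hθ φ hφ hlt => by
        have h1 := hlow θ (Finset.mem_insert_of_mem hθ) φ hφ hlt
        rcases Finset.mem_insert.1 h1 with h2 | h2
        · have := haT θ hθ
          linarith
        · exact h2)
      set B := LieSubalgebra.lieSpan K L (⋃ θ ∈ S \ insert a T, (E θ : Set L)) with hB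
      have hge : ∀ θ ∈ S, θ ∉ T → a ≤ θ := by
        intro θ hθ hθT
        by_contra hlt
        push Not at hlt
        rcases Finset.mem_insert.1 (hlow a (Finset.mem_insert_self a T) θ hθ hlt) with h2 | h2
        · linarith
        · exact hθT h2
      have hEB : ∀ θ ∈ S, a < θ → ∀ x ∈ E θ, x ∈ B := by
        intro θ hθ hlt x hx
        apply LieSubalgebra.subset_lieSpan
        simp only [Set.mem_iUnion]
        refine ⟨θ, ?_, hx⟩
        rw [Finset.mem_sdiff]
        refine ⟨hθ, fun h => ?_⟩
        rcases Finset.mem_insert.1 h with h2 | h2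
        · linarith
        · have := haT θ h2
          linarith
      set W : Submodule K L := (⨆ θ ∈ S \ {a}, E θ) ⊔ (E a ⊓ B.toSubmodule) with hW
      have hEW : ∀ θ ∈ S, θ ≠ a → ∀ x ∈ E θ, x ∈ W := by
        intro θ hθ hne x hx
        refine Submodule.mem_sup_left ?_
        exact Submodule.mem_iSup_of_mem θ (Submodule.mem_iSup_of_mem (by simp [hθ, hne]) hx)
      have hBW : ∀ x ∈ E a, x ∈ B → x ∈ W := fun x hx hxB => Submodule.mem_sup_right ⟨hx, hxB⟩
      have inW01 : ∀ r, 0 < r → r < 1 → r ≠ a → ∀ u ∈ E r, u ∈ W := by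
        intro r h0 h1 hra u hu
        by_cases hrS : r ∈ S
        · exact hEW r hrS hra u hu
        · rw [hout r h0 h1 hrS, Submodule.mem_bot] at hu
          rw [hu]; exact W.zero_mem
      have inW : ∀ r, 0 < r → r < 2 → r ≠ a → r ≠ a + 1 → ∀ u ∈ E r, u ∈ W := by
        intro r h0 h1 hra hra1 u hu
        rcases lt_trichotomy r 1 with h | h | h
        · exact inW01 r h0 h hra u hu
        · rw [h, show (1 : ℝ) = 0 + 1 by norm_num, hper, hE0, Submodule.mem_bot] at hu
          rw [hu]; exact W.zero_mem
        · have h2 : E r = E (r - 1) := by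
            rw [← hper (r - 1)]; congr 1; ring
          rw [h2] at hu
          exact inW01 (r - 1) (by linarith) (by linarith) (fun h3 => hra1 (by linarith)) u hu
      have stab : ∀ θ ∈ S, θ ∉ T → ∀ x ∈ E θ, W ≤ W.comap (LieAlgebra.ad K L x) := by
        intro θ hθ hθT x hx
        obtain ⟨hθ0, hθ1⟩ := hS θ hθ
        have hθa := hge θ hθ hθT
        refine sup_le (iSup₂_le fun c hc w hw => ?_) ?_
        · rw [Finset.mem_sdiff, Finset.mem_singleton] at hc
          obtain ⟨hc0, hc1⟩ := hS c hc.1
          rw [Submodule.mem_comap, LieAlgebra.ad_apply]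
          have h3 := hbr θ c x hx w hw
          by_cases h4 : θ + c = a + 1
          · have h5 : ⁅x, w⁆ ∈ B :=
              B.lie_mem (hEB θ hθ (by linarith) x hx) (hEB c hc.1 (by linarith) w hw)
            rw [h4, hper] at h3
            exact hBW _ h3 h5
          · exact inW _ (by linarith) (by linarith) (by intro h; linarith) h4 _ h3
        · rintro w ⟨hw, hwB⟩
          rw [Submodule.mem_comap, LieAlgebra.ad_apply]
          have h3 := hbr θ a x hx w hw
          exact inW _ (by linarith) (by linarith) (by intro h; linarith) (by intro h; linarith) _ h3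
      let Nm : LieSubalgebra K L :=
        { carrier := {x | ∀ w ∈ W, ⁅x, w⁆ ∈ W}
          add_mem' := by
            intro x y hx hy w hw
            rw [add_lie]
            exact W.add_mem (hx w hw) (hy w hw)
          zero_mem' := by
            intro w _
            rw [zero_lie]
            exact W.zero_mem
          smul_mem' := by
            intro c x hx w hw
            rw [smul_lie]
            exact W.smul_mem c (hx w hw)
          lie_mem' := by
            intro x y hx hy w hw
            rw [lie_lie]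
            exact W.sub_mem (hx _ (hy w hw)) (hy _ (hx w hw)) }
      have hNm : (⊤ : LieSubalgebra K L) ≤ Nm := by
        rw [← hG, LieSubalgebra.lieSpan_le]
        intro x hx
        simp only [Set.mem_iUnion] at hx
        obtain ⟨θ, hθ, hx⟩ := hx
        rw [Finset.mem_sdiff] at hθ
        intro w hw
        exact stab θ hθ.1 hθ.2 x hx hw
      have hideal : ∀ x : L, ∀ w ∈ W, ⁅x, w⁆ ∈ W := fun x => hNm (LieSubalgebra.mem_top x)
      have hbrW : ∀ x y : L, ⁅x, y⁆ ∈ W := by
        have h1 : ∀ θ ∈ S, ∀ φ ∈ S, ∀ x ∈ E θ, ∀ y ∈ E φ, ⁅x, y⁆ ∈ W := by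
          intro θ hθ φ hφ x hx y hy
          by_cases h2 : φ = a
          · by_cases h3 : θ = a
            · subst h2
              rw [h3] at hx
              exact inW _ (by linarith) (by linarith) (by intro h; linarith)
                (by intro h; linarith) _ (hbr _ _ x hx y hy)
            · rw [← lie_skew]
              exact W.neg_mem (hideal y x (hEW θ hθ h3 x hx))
          · exact hideal x y (hEW φ hφ h2 y hy)
        have h2 : ∀ θ ∈ S, ∀ x ∈ E θ, ∀ y, ⁅x, y⁆ ∈ W := by
          intro θ hθ x hx y
          have h3 : (⊤ : Submodule K L) ≤ W.comap (LieAlgebra.ad K L x) := by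
            rw [← hsup]
            exact iSup₂_le fun φ hφ z hz => h1 θ hθ φ hφ x hx z hz
          exact h3 (Submodule.mem_top (x := y))
        intro x y
        have h3 : (⊤ : Submodule K L) ≤ W.comap (LieAlgebra.ad K L y) := by
          rw [← hsup]
          refine iSup₂_le fun θ hθ z hz => ?_
          rw [Submodule.mem_comap, LieAlgebra.ad_apply, ← lie_skew]
          exact W.neg_mem (h2 θ hθ z hz y)
        have h4 := h3 (Submodule.mem_top (x := x))
        rw [Submodule.mem_comap, LieAlgebra.ad_apply] at h4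
        rw [← lie_skew]
        exact W.neg_mem h4
      have hWtop := hperf W hbrW
      have hEaB : ∀ x ∈ E a, x ∈ B := by
        intro x hx
        have h1 : x ∈ W := by rw [hWtop]; exact Submodule.mem_top
        rw [hW, Submodule.mem_sup] at h1
        obtain ⟨y, hy, z, hz, hyz⟩ := h1
        have h2 : y ∈ E a := by
          have : y = x - z := by rw [← hyz]; abel
          rw [this]
          exact (E a).sub_mem hx hz.1
        have h3 := Submodule.disjoint_def.1 (hind a haS) y h2 hy
        rw [h3, zero_add] at hyz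
        rw [← hyz]
        exact hz.2
      rw [eq_top_iff, ← hG, LieSubalgebra.lieSpan_le]
      intro x hx
      simp only [Set.mem_iUnion] at hx
      obtain ⟨θ, hθ, hx⟩ := hx
      rw [Finset.mem_sdiff] at hθ
      rcases (hge θ hθ.1 hθ.2).eq_or_lt with h | h
      · rw [← h] at hx
        exact hEaB x hx
      · exact hEB θ hθ.1 h x hx
  have h1 := key S (Finset.Subset.refl _) (fun θ _ φ hφ _ => hφ)
  have h2 : LieSubalgebra.lieSpan K L (⋃ θ ∈ S \ S, (E θ : Set L)) = ⊥ := by
    rw [Finset.sdiff_self]
    simp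
  rw [h2] at h1
  rw [← LieSubalgebra.top_toSubmodule, ← h1, LieSubalgebra.bot_toSubmodule]

end Run7.h468.TIG
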