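import Pool.Agent.Run7.h468.TIG.Krek

set_option autoImplicit false

namespace Run7.h468.TIG

open Module.End

/-- `exp (2 π i x)` -/
noncomputable def ee (x : ℝ) : ℂ := Complex.exp ((2 * Real.pi * x : ℝ) * Complex.I)

theorem ee_add (x y : ℝ) : ee (x + y) = ee x * ee y := by
  unfold ee
  rw [← Complex.exp_add]
  congr 1
  push_cast
  ring

theorem ee_zero : ee 0 = 1 := by
  unfold ee
  simp

theorem ee_one : ee 1 = 1 := by
  unfold ee
  rw [mul_one]
  push_cast
  exact Complex.exp_two_pi_mul_I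

theorem ee_inj {x y : ℝ} (hx0 : 0 < x) (hx1 : x < 1) (hy0 : 0 < y) (hy1 : y < 1)
    (h : ee x = ee y) : x = y := by
  unfold ee at h
  rw [Complex.exp_eq_exp_iff_exists_int] at h
  obtain ⟨n, hn⟩ := h
  have hpi : (2 * Real.pi : ℝ) ≠ 0 := by positivity
  have h1 : (x : ℂ) = y + n := by
    have h2 : (2 * Real.pi : ℂ) * Complex.I ≠ 0 :=
      mul_ne_zero (by exact_mod_cast hpi) Complex.I_ne_zero
    apply mul_left_cancel₀ h2
    push_cast at hn
    linear_combination hn
  have h2 : x = y + n := by exact_mod_cast h1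
  have h3 : (n : ℝ) < 1 := by linarith
  have h4 : (-1 : ℝ) < n := by linarith
  have h5 : n < 1 := by exact_mod_cast h3
  have h6 : -1 < n := by exact_mod_cast h4
  have h7 : n = 0 := by omega
  rw [h2, h7]; simp

theorem exists_ee {μ : ℂ} (hμ : ‖μ‖ = 1) (h1 : μ ≠ 1) : ∃ x : ℝ, 0 < x ∧ x < 1 ∧ ee x = μ := by
  have h2 : μ = Complex.exp (Complex.arg μ * Complex.I) := by
    have := Complex.norm_mul_exp_arg_mul_I μ
    rw [hμ] at this
    simpa using this.symm
  have hpi := Real.pi_pos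
  have hlt := Complex.neg_pi_lt_arg μ
  have hle := Complex.arg_le_pi μ
  have h0 : Complex.arg μ ≠ 0 := by
    intro h
    rw [h] at h2
    apply h1
    rw [h2]; simp
  have hform : ∀ z : ℝ, ee (z / (2 * Real.pi)) = Complex.exp (z * Complex.I) := by
    intro z
    unfold ee
    congr 2
    congr 1
    field_simp
  rcases lt_or_gt_of_ne h0 with h | h
  · refine ⟨Complex.arg μ / (2 * Real.pi) + 1, ?_, ?_, ?_⟩
    · have : -1 < Complex.arg μ / (2 * Real.pi) := by
        rw [lt_div_iff₀ (by positivity)]; linarith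
      linarith
    · have : Complex.arg μ / (2 * Real.pi) < 0 := div_neg_of_neg_of_pos h (by positivity)
      linarith
    · rw [ee_add, ee_one, mul_one, hform]
      exact h2.symm
  · refine ⟨Complex.arg μ / (2 * Real.pi), by positivity, ?_, ?_⟩
    · rw [div_lt_one (by positivity)]; linarith
    · rw [hform]
      exact h2.symm

section diag

variable {L : Type*} [AddCommGroup L] [Module ℂ L]

theorem eig_norm (σ : L →ₗ[ℂ] L) (h : L →ₗ⋆[ℂ] L →ₗ[ℂ] ℂ) (hpos : ∀ x, h x x = 0 → x = 0)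
    (hinv : ∀ x y, h (σ x) (σ y) = h x y) {μ : ℂ} {w : L} (hw : w ≠ 0) (hμ : σ w = μ • w) :
    ‖μ‖ = 1 := by
  have h1 : (starRingEnd ℂ) μ * μ * h w w = h w w := by
    have h0 := hinv w w
    rw [hμ, map_smul (h (μ • w)) μ w, LinearMap.map_smulₛₗ h μ w, LinearMap.smul_apply,
      smul_eq_mul, smul_eq_mul] at h0
    linear_combination h0
  have h2 : h w w ≠ 0 := fun h0 => hw (hpos w h0)
  have h3 : (starRingEnd ℂ) μ * μ = 1 := by
    apply mul_right_cancel₀ h2
    rw [h1, one_mul]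
  have h4 : ‖μ‖ ^ 2 = 1 := by
    rw [Complex.conj_mul'] at h3
    exact_mod_cast h3
  nlinarith [norm_nonneg μ]

theorem diag_step (σ : L →ₗ[ℂ] L) (h : L →ₗ⋆[ℂ] L →ₗ[ℂ] ℂ) (hpos : ∀ x, h x x = 0 → x = 0)
    (hinv : ∀ x y, h (σ x) (σ y) = h x y) (μ : ℂ) (x : L)
    (hx : (σ - algebraMap ℂ (Module.End ℂ L) μ) ((σ - algebraMap ℂ (Module.End ℂ L) μ) x) = 0) :
    (σ - algebraMap ℂ (Module.End ℂ L) μ) x = 0 := by
  set w := (σ - algebraMap ℂ (Module.End ℂ L) μ) x with hw
  by_contra hne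
  have h1 : σ w = μ • w := by
    rw [LinearMap.sub_apply, Module.algebraMap_end_apply, sub_eq_zero] at hx
    exact hx
  have hμ := eig_norm σ h hpos hinv hne h1
  have h2 : σ x = μ • x + w := by
    rw [hw, LinearMap.sub_apply, Module.algebraMap_end_apply]; abel
  have h3 := hinv x w
  have h3' : (starRingEnd ℂ) μ * μ * h x w + μ * h w w = h x w := by
    rw [h1, h2, map_add, LinearMap.add_apply, map_smul (h w) μ w, map_smul (h (μ • x)) μ w,
      LinearMap.map_smulₛₗ h μ x, LinearMap.smul_apply, smul_eq_mul, smul_eq_mul,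
      smul_eq_mul] at h3
    linear_combination h3
  rw [Complex.conj_mul', hμ] at h3'
  have h4 : μ * h w w = 0 := by
    have : ((1 : ℝ) : ℂ) ^ 2 * (h x) w + μ * (h w) w = (h x) w := h3'
    simpa using this
  rcases mul_eq_zero.1 h4 with h5 | h5
  · rw [h5] at hμ; simp at hμ
  · exact hne (hpos w h5)

theorem diag (σ : L →ₗ[ℂ] L) [FiniteDimensional ℂ L] (h : L →ₗ⋆[ℂ] L →ₗ[ℂ] ℂ)
    (hpos : ∀ x, h x x = 0 → x = 0) (hinv : ∀ x y, h (σ x) (σ y) = h x y) :
    (⨆ μ, eigenspace σ μ) = ⊤ := by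
  rw [eq_top_iff, ← iSup_maxGenEigenspace_eq_top σ]
  refine iSup_mono fun μ => ?_
  intro x hx
  rw [mem_maxGenEigenspace] at hx
  obtain ⟨k, hk⟩ := hx
  rw [mem_eigenspace_iff]
  have hk' : ((σ - algebraMap ℂ (Module.End ℂ L) μ) ^ k) x = 0 := by
    rw [← hk]
    congr 2
  have key : ∀ k : ℕ, ((σ - algebraMap ℂ (Module.End ℂ L) μ) ^ k) x = 0 →
      (σ - algebraMap ℂ (Module.End ℂ L) μ) x = 0 := by
    intro k
    induction k with
    | zero =>
      intro h0
      rw [pow_zero, Module.End.one_apply] at h0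
      rw [h0, map_zero]
    | succ k ih =>
      intro h0
      cases k with
      | zero => simpa using h0
      | succ k =>
        apply ih
        rw [pow_succ', Module.End.mul_apply]
        apply diag_step σ h hpos hinv μ
        rw [← Module.End.mul_apply, ← Module.End.mul_apply, ← pow_two, ← pow_add]
        rw [show 2 + k = k + 1 + 1 by ring]
        exact h0
  have h1 := key k hk'
  rw [LinearMap.sub_apply, Module.algebraMap_end_apply, sub_eq_zero] at h1
  exact h1

end diag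

/-- A perfect Lie algebra with a unitary automorphism without nonzero fixed vectors vanishes. -/
theorem krek_unitary {L : Type*} [LieRing L] [LieAlgebra ℂ L] [FiniteDimensional ℂ L]
    (σ : L →ₗ[ℂ] L) (hσ : ∀ x y, σ ⁅x, y⁆ = ⁅σ x, σ y⁆) (h : L →ₗ⋆[ℂ] L →ₗ[ℂ] ℂ)
    (hpos : ∀ x, h x x = 0 → x = 0) (hinv : ∀ x y, h (σ x) (σ y) = h x y)
    (hfix : ∀ x, σ x = x → x = 0)
    (hperf : ∀ W : Submodule ℂ L, (∀ x y : L, ⁅x, y⁆ ∈ W) → W = ⊤) (x : L) : x = 0 := by
  classical
  have hfin : {θ : ℝ | 0 < θ ∧ θ < 1 ∧ HasEigenvalue σ (ee θ)}.Finite := by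
    have h1 : {μ : ℂ | HasEigenvalue σ μ}.Finite := by
      have := Module.End.finite_hasEigenvalue σ
      exact this
    refine Set.Finite.of_finite_image (f := ee) (h1.subset ?_) ?_
    · rintro _ ⟨θ, hθ, rfl⟩
      exact hθ.2.2
    · intro a ha b hb hab
      exact ee_inj ha.1 ha.2.1 hb.1 hb.2.1 hab
  have hS : ∀ θ, θ ∈ hfin.toFinset ↔ 0 < θ ∧ θ < 1 ∧ HasEigenvalue σ (ee θ) := by
    intro θ; simp
  have h1fix : eigenspace σ 1 = ⊥ := by
    rw [eq_bot_iff]
    intro x hx
    rw [mem_eigenspace_iff, one_smul] at hx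
    rw [Submodule.mem_bot]
    exact hfix x hx
  have hbot := krek_aux (K := ℂ) (L := L) hfin.toFinset (fun θ hθ => ⟨((hS θ).1 hθ).1, ((hS θ).1 hθ).2.1⟩)
    (fun θ => eigenspace σ (ee θ)) (by rw [ee_zero]; exact h1fix)
    (fun x => by rw [ee_add, ee_one, mul_one])
    (fun θ h0 h1 hθ => by
      by_contra hne
      apply hθ
      rw [hS]
      exact ⟨h0, h1, hne⟩)
    (fun x y u hu v hv => by
      rw [mem_eigenspace_iff] at hu hv ⊢
      rw [hσ, hu, hv, ee_add, smul_lie, lie_smul, smul_smul])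
    (by
      rw [eq_top_iff, ← diag σ h hpos hinv]
      refine iSup_le fun μ => ?_
      by_cases hμ : HasEigenvalue σ μ
      · obtain ⟨w, hw⟩ := hμ.exists_hasEigenvector
        have h2 := eig_norm σ h hpos hinv hw.2 hw.apply_eq_smul
        have h3 : μ ≠ 1 := by
          rintro rfl
          exact hμ h1fix
        obtain ⟨θ, h4, h5, rfl⟩ := exists_ee h2 h3
        exact le_iSup₂_of_le θ ((hS θ).2 ⟨h4, h5, hμ⟩) le_rfl
      · have : eigenspace σ μ = ⊥ := by
          by_contra hne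
          exact hμ hne
        rw [this]; exact bot_le)
    (fun a ha => by
      have h2 := (eigenspaces_iSupIndep σ) (ee a)
      refine h2.mono_right ?_
      refine iSup₂_le fun θ hθ => ?_
      rw [Finset.mem_sdiff, Finset.mem_singleton, hS] at hθ
      rw [hS] at ha
      refine le_iSup₂_of_le (ee θ) (fun h3 => hθ.2 ?_) le_rfl
      exact ee_inj hθ.1.1 hθ.1.2.1 ha.1 ha.2.1 h3)
    hperf
  have : x ∈ (⊤ : Submodule ℂ L) := Submodule.mem_top
  rw [hbot] at this
  exact (Submodule.mem_bot ℂ).1 this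

end Run7.h468.TIG
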