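import Pool.Agent.Run7.h468.TIG.Krek2

set_option autoImplicit false

namespace Run7.h468.TIG

open Module.End
open scoped ComplexOrder

variable {r : ℕ}

/-- the matrix algebra -/
abbrev MM (r : ℕ) := Matrix (Fin r) (Fin r) ℂ

/-- the real inner product -/
noncomputable def BB (r : ℕ) : LinearMap.BilinForm ℝ (MM r) :=
  LinearMap.mk₂ ℝ (fun X Y => (Matrix.trace (star X * Y)).re)
    (fun X Y Z => by
      rw [star_add, add_mul, Matrix.trace_add, Complex.add_re])
    (fun c X Y => by
      rw [star_smul, smul_mul_assoc, Matrix.trace_smul]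
      simp)
    (fun X Y Z => by
      rw [mul_add, Matrix.trace_add, Complex.add_re])
    (fun c X Y => by
      rw [mul_smul_comm, Matrix.trace_smul]
      simp)

theorem BB_apply (X Y : MM r) : BB r X Y = (Matrix.trace (star X * Y)).re := rfl

theorem BB_symm (X Y : MM r) : BB r X Y = BB r Y X := by
  rw [BB_apply, BB_apply]
  have h : Matrix.trace (star Y * X) = star (Matrix.trace (star X * Y)) := by
    rw [Matrix.star_eq_conjTranspose, Matrix.star_eq_conjTranspose, ← Matrix.trace_conjTranspose,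
      Matrix.conjTranspose_mul, Matrix.conjTranspose_conjTranspose]
  rw [h]
  simp

theorem BB_def {X : MM r} (h : BB r X X = 0) : X = 0 := by
  rw [BB_apply] at h
  have h1 : Matrix.trace (star X * X) = 0 := by
    apply Complex.ext
    · simpa using h
    · have h2 : Matrix.trace (star X * X) = star (Matrix.trace (star X * X)) := by
        rw [Matrix.star_eq_conjTranspose, ← Matrix.trace_conjTranspose,
          Matrix.conjTranspose_mul, Matrix.conjTranspose_conjTranspose]
      have h3 := congrArg Complex.im h2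
      simp only [Complex.star_def, Complex.conj_im] at h3
      simp only [Complex.zero_im]
      linarith
  rw [Matrix.star_eq_conjTranspose] at h1
  exact Matrix.trace_conjTranspose_mul_self_eq_zero_iff.1 h1

/-- invariance of the inner product -/
theorem BB_inv {X Y W : MM r} (hX : star X = -X) (hY : star Y = -Y) :
    BB r X (Y * W - W * Y) = BB r (X * Y - Y * X) W := by
  rw [BB_apply, BB_apply, star_sub, star_mul, star_mul, hX, hY]
  congr 1
  have h1 : Matrix.trace (X * W * Y) = Matrix.trace (Y * X * W) := by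
    rw [Matrix.trace_mul_comm, Matrix.mul_assoc]
  simp only [neg_mul, mul_neg, neg_neg, mul_sub, sub_mul, Matrix.trace_neg, Matrix.trace_sub,
    ← Matrix.mul_assoc]
  rw [h1]
  ring

/-- Maximal abelian subspaces of `g`. -/
def MaxAb (g t : Submodule ℝ (MM r)) : Prop :=
  t ≤ g ∧ ∀ X ∈ g, X ∈ t ↔ ∀ Y ∈ t, X * Y = Y * X

theorem bracket_skew {X Y : MM r} (hX : star X = -X) (hY : star Y = -Y) :
    star (X * Y - Y * X) = -(X * Y - Y * X) := by
  rw [star_sub, star_mul, star_mul, hX, hY]
  noncomm_ring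

/-- decomposition of a compact Lie algebra -/
theorem decomp (z : Submodule ℝ (MM r)) (hskew : ∀ X ∈ z, star X = -X)
    (hbr : ∀ X ∈ z, ∀ Y ∈ z, X * Y - Y * X ∈ z) (X : MM r) (hX : X ∈ z) :
    ∃ X1 ∈ Submodule.span ℝ {Z : MM r | ∃ X ∈ z, ∃ Y ∈ z, Z = X * Y - Y * X},
      ∃ X0 ∈ z, (∀ Y ∈ z, X0 * Y = Y * X0) ∧ X = X1 + X0 := by
  set z' := Submodule.span ℝ {Z : MM r | ∃ X ∈ z, ∃ Y ∈ z, Z = X * Y - Y * X} with hz'
  have hle : z' ≤ z := by
    rw [hz', Submodule.span_le]
    rintro _ ⟨X, hX, Y, hY, rfl⟩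
    exact hbr X hX Y hY
  have hrefl : (BB r).IsRefl := fun x y h => by rw [BB_symm]; exact h
  have hdisj : Disjoint z' ((BB r).orthogonal z') := by
    rw [Submodule.disjoint_def]
    intro x hx hx'
    exact BB_def ((LinearMap.BilinForm.mem_orthogonal_iff.1 hx') x hx)
  have hcompl := (LinearMap.BilinForm.isCompl_orthogonal_iff_disjoint hrefl).2 hdisj
  have hXtop : X ∈ z' ⊔ (BB r).orthogonal z' := by
    rw [hcompl.sup_eq_top]; exact Submodule.mem_top
  obtain ⟨X1, hX1, X0, hX0, hsum⟩ := Submodule.mem_sup.1 hXtop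
  refine ⟨X1, hX1, X0, ?_, ?_, hsum.symm⟩
  · have : X0 = X - X1 := by rw [← hsum]; abel
    rw [this]
    exact z.sub_mem hX (hle hX1)
  · have hX0z : X0 ∈ z := by
      have : X0 = X - X1 := by rw [← hsum]; abel
      rw [this]
      exact z.sub_mem hX (hle hX1)
    intro Y hY
    have h1 : X0 * Y - Y * X0 = 0 := by
      apply BB_def
      set W := X0 * Y - Y * X0 with hW
      have hWz : W ∈ z := hbr _ hX0z _ hY
      rw [hW, ← BB_inv (hskew _ hX0z) (hskew _ hY), BB_symm]
      have h2 := (LinearMap.BilinForm.mem_orthogonal_iff.1 hX0) (Y * W - W * Y)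
        (Submodule.subset_span ⟨Y, hY, W, hWz, rfl⟩)
      exact h2
    exact sub_eq_zero.1 h1

/-- a central element of the derived algebra vanishes -/
theorem central_zero (z : Submodule ℝ (MM r)) (hskew : ∀ X ∈ z, star X = -X)
    (X : MM r) (hX : X ∈ Submodule.span ℝ {Z : MM r | ∃ X ∈ z, ∃ Y ∈ z, Z = X * Y - Y * X})
    (hXz : X ∈ z) (hc : ∀ Y ∈ z, X * Y = Y * X) : X = 0 := by
  apply BB_def
  have h1 : ∀ Z ∈ Submodule.span ℝ {Z : MM r | ∃ X ∈ z, ∃ Y ∈ z, Z = X * Y - Y * X},
      BB r X Z = 0 := by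
    intro Z hZ
    induction hZ using Submodule.span_induction with
    | mem Z hZ =>
      obtain ⟨P, hP, Q, hQ, rfl⟩ := hZ
      rw [BB_inv (hskew _ hXz) (hskew _ hP), hc P hP, sub_self, map_zero, LinearMap.zero_apply]
    | zero => rw [map_zero]
    | add P Q _ _ hP hQ => rw [map_add, hP, hQ, add_zero]
    | smul c P _ hP => rw [map_smul, hP, smul_zero]
  exact h1 X hX

end Run7.h468.TIG
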