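import Pool.Agent.Run7.h468.TIG.Hunt
import Pool.Agent.Run7.h468.TIG.Easy
import Pool.Agent.TH264.Bridge.PW

set_option autoImplicit false

namespace Run7.h468.TIG

open scoped Matrix.Norms.Operator
open Pool.Agent.E8helper46.FL Filter Topology NormedSpace

variable {r : ℕ} {G : Type*} [Group G] [TopologicalSpace G] [IsTopologicalGroup G]

/-- If the Lie algebra is abelian then the identity component has abelian image. -/
theorem comp_comm [CompactSpace G] (ρ : G →* Matrix.unitaryGroup (Fin r) ℂ) (hρ : Continuous ρ)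
    (hab : ∀ X ∈ lg0 ρ hρ, ∀ Y ∈ lg0 ρ hρ, X * Y = Y * X) (a b : G)
    (ha : a ∈ connectedComponent (1 : G)) (hb : b ∈ connectedComponent (1 : G)) :
    ρ (a * b) = ρ (b * a) := by
  have h1 := near_one (phi ρ).range (range_closed ρ hρ)
  have h2 : Tendsto (phi ρ) (𝓝 1) (𝓝 1) := by
    have := (phi_cont ρ hρ).tendsto 1
    rwa [map_one] at this
  have h3 := h2.eventually h1
  set U : Set G := {x | ∃ X ∈ lg0 ρ hρ, phi ρ x = ex X} with hU
  have hU1 : U ∈ 𝓝 (1 : G) := by
    filter_upwards [h3] with x hx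
    exact hx ⟨x, rfl⟩
  have hop : IsOpen ((Subgroup.closure U : Subgroup G) : Set G) :=
    Subgroup.isOpen_of_mem_nhds _ (mem_of_superset hU1 Subgroup.subset_closure)
  have hcl : IsClosed ((Subgroup.closure U : Subgroup G) : Set G) :=
    Subgroup.isClosed_of_isOpen _ hop
  have hsub : connectedComponent (1 : G) ⊆ (Subgroup.closure U : Subgroup G) :=
    IsClopen.connectedComponent_subset ⟨hcl, hop⟩ (Subgroup.one_mem _)
  have hcomm : ∀ x ∈ Subgroup.closure U, ∀ y ∈ Subgroup.closure U,
      Commute (phi ρ x) (phi ρ y) := by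
    intro x hx y hy
    induction hx, hy using Subgroup.closure_induction₂ with
    | mem x y hx hy =>
      obtain ⟨X, hX, hx⟩ := hx
      obtain ⟨Y, hY, hy⟩ := hy
      rw [hx, hy, commute_iff_eq, ← ex_add (hab X hX Y hY), ← ex_add (hab Y hY X hX), add_comm]
    | one_left x _ => rw [map_one]; exact Commute.one_left _
    | one_right x _ => rw [map_one]; exact Commute.one_right _
    | mul_left x y z _ _ _ h1 h2 => rw [map_mul]; exact h1.mul_left h2
    | mul_right x y z _ _ _ h1 h2 => rw [map_mul]; exact h1.mul_right h2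
    | inv_left x y _ _ h1 => rw [map_inv]; exact h1.inv_left
    | inv_right x y _ _ h1 => rw [map_inv]; exact h1.inv_right
  have h4 := hcomm a (hsub ha) b (hsub hb)
  apply Subtype.ext
  have h5 : phi ρ (a * b) = phi ρ (b * a) := by
    rw [map_mul, map_mul]; exact h4
  have h6 := congrArg Units.val h5
  exact h6

theorem exists_bad [CompactSpace G] (ρ : G →* Matrix.unitaryGroup (Fin r) ℂ) (hρ : Continuous ρ)
    (hab : ¬ ∀ X ∈ lg0 ρ hρ, ∀ Y ∈ lg0 ρ hρ, X * Y = Y * X) :
    ∃ M : Subgroup G, IsClosed (M : Set G) ∧ M ≠ ⊤ ∧ ∀ x : G, ∃ g : G, g * x * g⁻¹ ∈ M := by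
  have hsm : ∀ x : G, (ρ x⁻¹ : MM r) = star (ρ x : MM r) := by
    intro x; rw [map_inv]; rfl
  have hmm : ∀ x y : G, (ρ (x * y) : MM r) = (ρ x : MM r) * (ρ y : MM r) := by
    intro x y; rw [map_mul]; rfl
  have hst : ∀ x : G, ∃ t : Submodule ℝ (MM r), MaxAb (lg0 ρ hρ) t ∧
      (∀ X ∈ t, (ρ x : MM r) * X * star (ρ x : MM r) ∈ t) ∧
      (∀ X ∈ t, star (ρ x : MM r) * X * (ρ x : MM r) ∈ t) := fun x =>
    stable_max (lg0 ρ hρ) (fun X hX => lg0_skew hX) (fun X hX Y hY => lg0_bracket hX hY)
      (ρ x : MM r) (rho_star_mul x) (rho_mul_star x) (fun X hX => lg0_conj hX x)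
      (fun X hX => lg0_conj' hX x)
  obtain ⟨t, ht, -, -⟩ := hst 1
  have htab : ∀ X ∈ t, ∀ Y ∈ t, X * Y = Y * X := fun X hX => (ht.2 X (ht.1 hX)).1 hX
  obtain ⟨X0, hX0, hreg⟩ := exists_regular t (fun X hX => lg0_skew (ht.1 hX)) htab
  -- conjugating into t
  have hinto : ∀ Y ∈ lg0 ρ hρ, ∃ y : G, (ρ y : MM r) * Y * star (ρ y : MM r) ∈ t := by
    intro Y hY
    obtain ⟨y, hy⟩ := hunt (ht.1 hX0) hY
    exact ⟨y, (ht.2 _ (lg0_conj hY y)).2 fun H hH => hreg _ hy H hH⟩
  let M : Subgroup G :=
    { carrier := {x | (∀ X ∈ t, (ρ x : MM r) * X * star (ρ x : MM r) ∈ t) ∧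
        (∀ X ∈ t, star (ρ x : MM r) * X * (ρ x : MM r) ∈ t)}
      mul_mem' := by
        rintro x y ⟨hx1, hx2⟩ ⟨hy1, hy2⟩
        refine ⟨fun X hX => ?_, fun X hX => ?_⟩
        · rw [hmm, star_mul]
          have := hx1 _ (hy1 X hX)
          simp only [← mul_assoc] at this ⊢
          exact this
        · rw [hmm, star_mul]
          have := hy2 _ (hx2 X hX)
          simp only [← mul_assoc] at this ⊢
          exact this
      one_mem' := by
        refine ⟨fun X hX => ?_, fun X hX => ?_⟩
        · rw [map_one]; simpa using hX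
        · rw [map_one]; simpa using hX
      inv_mem' := by
        rintro x ⟨hx1, hx2⟩
        refine ⟨fun X hX => ?_, fun X hX => ?_⟩
        · rw [hsm, star_star]; exact hx2 X hX
        · rw [hsm, star_star]; exact hx1 X hX }
  have htc : IsClosed (t : Set (MM r)) := Submodule.closed_of_finiteDimensional _
  have hc1 : Continuous fun x => (ρ x : MM r) := continuous_subtype_val.comp hρ
  refine ⟨M, ?_, ?_, ?_⟩
  · have h1 : (M : Set G) = (⋂ X ∈ t, {x | (ρ x : MM r) * X * star (ρ x : MM r) ∈ t}) ∩
        (⋂ X ∈ t, {x | star (ρ x : MM r) * X * (ρ x : MM r) ∈ t}) := by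
      ext x
      simp only [Set.mem_inter_iff, Set.mem_iInter, Set.mem_setOf_eq]
      rfl
    rw [h1]
    refine IsClosed.inter (isClosed_biInter fun X _ => ?_) (isClosed_biInter fun X _ => ?_)
    · exact htc.preimage ((hc1.mul continuous_const).mul hc1.star)
    · exact htc.preimage ((hc1.star.mul continuous_const).mul hc1)
  · intro hM
    apply hab
    have hle : ∀ Y ∈ lg0 ρ hρ, Y ∈ t := by
      intro Y hY
      obtain ⟨y, hy⟩ := hinto Y hY
      have hyM : y ∈ M := by rw [hM]; exact Subgroup.mem_top y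
      have h1 := hyM.2 _ hy
      have h2 : star (ρ y : MM r) * ((ρ y : MM r) * Y * star (ρ y : MM r)) * (ρ y : MM r) = Y := by
        calc star (ρ y : MM r) * ((ρ y : MM r) * Y * star (ρ y : MM r)) * (ρ y : MM r)
            = (star (ρ y : MM r) * (ρ y : MM r)) * Y * (star (ρ y : MM r) * (ρ y : MM r)) := by
              noncomm_ring
          _ = Y := by rw [rho_star_mul]; noncomm_ring
      rwa [h2] at h1
    exact fun X hX Y hY => htab X (hle X hX) Y (hle Y hY)
  · intro x
    obtain ⟨t', ht', hx1, hx2⟩ := hst x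
    have htab' : ∀ X ∈ t', ∀ Y ∈ t', X * Y = Y * X := fun X hX => (ht'.2 X (ht'.1 hX)).1 hX
    obtain ⟨X0', hX0', hreg'⟩ := exists_regular t' (fun X hX => lg0_skew (ht'.1 hX)) htab'
    obtain ⟨y, hy⟩ := hinto X0' (ht'.1 hX0')
    set d : MM r := (ρ y : MM r) with hd
    have hd1 : star d * d = 1 := rho_star_mul y
    have hd2 : d * star d = 1 := rho_mul_star y
    have htt' : ∀ X ∈ t, star d * X * d ∈ t' := by
      intro X hX
      refine (ht'.2 _ (lg0_conj' (ht.1 hX) y)).2 fun H hH => hreg' _ ?_ H hH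
      have h1 := htab X hX _ hy
      calc star d * X * d * X0' = star d * X * d * X0' * 1 := by rw [mul_one]
        _ = star d * X * d * X0' * (star d * d) := by rw [hd1]
        _ = star d * (X * (d * X0' * star d)) * d := by noncomm_ring
        _ = star d * ((d * X0' * star d) * X) * d := by rw [h1]
        _ = (star d * d) * X0' * (star d * X * d) := by noncomm_ring
        _ = X0' * (star d * X * d) := by rw [hd1, one_mul]
    have ht't : ∀ W ∈ t', d * W * star d ∈ t := by
      intro W hW
      refine (ht.2 _ (lg0_conj (ht'.1 hW) y)).2 fun X hX => ?_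
      have h1 := htab' W hW _ (htt' X hX)
      calc d * W * star d * X = d * W * star d * X * 1 := by rw [mul_one]
        _ = d * W * star d * X * (d * star d) := by rw [hd2]
        _ = d * (W * (star d * X * d)) * star d := by noncomm_ring
        _ = d * ((star d * X * d) * W) * star d := by rw [h1]
        _ = (d * star d) * X * (d * W * star d) := by noncomm_ring
        _ = X * (d * W * star d) := by rw [hd2, one_mul]
    refine ⟨y, fun X hX => ?_, fun X hX => ?_⟩
    · have h1 := ht't _ (hx1 _ (htt' X hX))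
      rw [hmm, hmm, hsm, star_mul, star_mul, star_star]
      simp only [← mul_assoc] at h1 ⊢
      exact h1
    · have h1 := ht't _ (hx2 _ (htt' X hX))
      rw [hmm, hmm, hsm, star_mul, star_mul, star_star]
      simp only [← mul_assoc] at h1 ⊢
      exact h1

/-- Topologically invariably generated compact groups have abelian identity component. -/
theorem hard [CompactSpace G] [T2Space G]
    (h : ∀ M : Subgroup G, IsClosed (M : Set G) → (∀ x : G, ∃ g : G, g * x * g⁻¹ ∈ M) → M = ⊤)
    (a b : G) (ha : a ∈ connectedComponent (1 : G)) (hb : b ∈ connectedComponent (1 : G)) :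
    a * b = b * a := by
  by_contra hne
  have hk : (a * b) * (b * a)⁻¹ ≠ 1 := fun h => hne (mul_inv_eq_one.1 h)
  obtain ⟨N, ρ₀, h1, h2⟩ := Pool.Agent.TH264.Bridge.PWaux1.exists_rep_ne_one G _ hk
  obtain ⟨ι, _, _, ρ, h3, h4⟩ := Pool.Agent.TH264.Bridge.PWaux2.PW_unit G _ N ρ₀ h1 h2
  let e : ι ≃ Fin (Fintype.card ι) := Fintype.equivFin ι
  have hmem : ∀ g, (ρ g : Matrix ι ι ℂ).submatrix e.symm e.symm ∈
      Matrix.unitaryGroup (Fin (Fintype.card ι)) ℂ := by
    intro g
    rw [Matrix.mem_unitaryGroup_iff', Matrix.star_eq_conjTranspose, Matrix.conjTranspose_submatrix,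
      Matrix.submatrix_mul_equiv]
    have h5 := Matrix.mem_unitaryGroup_iff'.1 (ρ g).2
    rw [Matrix.star_eq_conjTranspose] at h5
    rw [h5]
    exact Matrix.submatrix_one_equiv e.symm
  let σ : G →* Matrix.unitaryGroup (Fin (Fintype.card ι)) ℂ :=
    { toFun := fun g => ⟨(ρ g : Matrix ι ι ℂ).submatrix e.symm e.symm, hmem g⟩
      map_one' := by
        apply Subtype.ext
        show ((ρ 1 : Matrix.unitaryGroup ι ℂ) : Matrix ι ι ℂ).submatrix e.symm e.symm = 1
        rw [map_one]
        exact Matrix.submatrix_one_equiv e.symm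
      map_mul' := fun g h => by
        apply Subtype.ext
        show ((ρ (g * h) : Matrix.unitaryGroup ι ℂ) : Matrix ι ι ℂ).submatrix e.symm e.symm =
          (ρ g : Matrix ι ι ℂ).submatrix e.symm e.symm *
            (ρ h : Matrix ι ι ℂ).submatrix e.symm e.symm
        rw [map_mul, Matrix.submatrix_mul_equiv]
        rfl }
  have hσ : Continuous σ := by
    apply Continuous.subtype_mk
    exact (continuous_subtype_val.comp h3).matrix_submatrix _ _
  have hσne : σ (a * b) ≠ σ (b * a) := by
    intro h5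
    apply h4
    have h6 : (ρ (a * b) : Matrix ι ι ℂ).submatrix e.symm e.symm =
        (ρ (b * a) : Matrix ι ι ℂ).submatrix e.symm e.symm :=
      congrArg Subtype.val h5
    have h7 : ρ (a * b) = ρ (b * a) := by
      apply Subtype.ext
      ext i j
      have h8 := congrFun (congrFun h6 (e i)) (e j)
      simpa using h8
    rw [map_mul ρ (a * b), map_inv, h7, mul_inv_cancel]
  have hab : ¬ ∀ X ∈ lg0 σ hσ, ∀ Y ∈ lg0 σ hσ, X * Y = Y * X := fun hab =>
    hσne (comp_comm σ hσ hab a b ha hb)
  obtain ⟨M, hM1, hM2, hM3⟩ := exists_bad σ hσ hab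
  exact hM2 (h M hM1 hM3)

theorem comp_normal : (Subgroup.connectedComponentOfOne G).Normal := by
  refine ⟨fun n hn g => ?_⟩
  have hc : Continuous fun x : G => g * x * g⁻¹ :=
    (continuous_const.mul continuous_id).mul continuous_const
  have h1 := hc.image_connectedComponent_subset (1 : G)
  rw [mul_one, mul_inv_cancel] at h1
  exact h1 ⟨n, hn, rfl⟩

theorem comp_quot : TotallyDisconnectedSpace (G ⧸ Subgroup.connectedComponentOfOne G) := by
  rw [totallyDisconnectedSpace_iff_connectedComponent_singleton]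
  intro x
  obtain ⟨g, rfl⟩ := QuotientGroup.mk_surjective x
  have hfib : ∀ y : G ⧸ Subgroup.connectedComponentOfOne G,
      IsConnected ((QuotientGroup.mk : G → _) ⁻¹' {y}) := by
    intro y
    obtain ⟨k, rfl⟩ := QuotientGroup.mk_surjective y
    have h1 : (QuotientGroup.mk : G → G ⧸ Subgroup.connectedComponentOfOne G) ⁻¹'
        {QuotientGroup.mk k} = (fun x => k * x) '' connectedComponent (1 : G) := by
      ext z
      constructor
      · intro hz
        have h2 : (QuotientGroup.mk k : G ⧸ Subgroup.connectedComponentOfOne G) =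
          QuotientGroup.mk z := (Set.mem_singleton_iff.1 hz).symm
        exact ⟨k⁻¹ * z, QuotientGroup.eq.1 h2, by simp⟩
      · rintro ⟨w, hw, rfl⟩
        refine Set.mem_singleton_iff.2 (QuotientGroup.eq.2 ?_).symm
        have h3 : k⁻¹ * (k * w) = w := by group
        rw [h3]
        exact hw
    rw [h1]
    exact isConnected_connectedComponent.image _ (continuous_const.mul continuous_id).continuousOn
  have hco : IsCoinducing (QuotientGroup.mk : G → G ⧸ Subgroup.connectedComponentOfOne G) :=
    (QuotientGroup.isQuotientMap_mk _).isCoinducing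
  have h2 := hco.image_connectedComponent hfib g
  rw [← h2]
  have h3 : connectedComponent g = (QuotientGroup.mk : G → G ⧸ Subgroup.connectedComponentOfOne G) ⁻¹'
        {QuotientGroup.mk g} := by
    apply Set.Subset.antisymm
    · intro z hz
      refine Set.mem_singleton_iff.2 (QuotientGroup.eq.2 ?_).symm
      have hc : Continuous fun x : G => g⁻¹ * x := continuous_const.mul continuous_id
      have h4 := hc.image_connectedComponent_subset g
      rw [inv_mul_cancel] at h4
      exact h4 ⟨z, hz, rfl⟩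
    · exact (hfib _).subset_connectedComponent rfl
  rw [h3, Set.image_preimage_eq _ QuotientGroup.mk_surjective]

/-- The main theorem. -/
theorem main [CompactSpace G] [T2Space G] :
    (∀ f : G → G,
        (Subgroup.closure (Set.range (fun x : G => f x * x * (f x)⁻¹))).topologicalClosure = ⊤) ↔
      ∃ N : Subgroup G, N.Normal ∧ IsClosed (N : Set G) ∧ IsConnected (N : Set G) ∧
        (∀ a ∈ N, ∀ b ∈ N, a * b = b * a) ∧ TotallyDisconnectedSpace (G ⧸ N) := by
  constructor
  · intro h
    refine ⟨Subgroup.connectedComponentOfOne G, comp_normal, isClosed_connectedComponent,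
      isConnected_connectedComponent, ?_, comp_quot⟩
    intro a ha b hb
    refine hard (fun M hM hMc => ?_) a b ha hb
    choose f hf using hMc
    have h1 := h f
    rw [eq_top_iff, ← h1]
    refine Subgroup.topologicalClosure_minimal _ ?_ hM
    rw [Subgroup.closure_le]
    rintro _ ⟨x, rfl⟩
    exact hf x
  · rintro ⟨N, hN, hNc, -, hab, htd⟩ f
    refine easy N hN hab htd _ (Subgroup.isClosed_topologicalClosure _) fun x => ⟨f x, ?_⟩
    exact Subgroup.le_topologicalClosure _ (Subgroup.subset_closure ⟨x, rfl⟩)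

end Run7.h468.TIG
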