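import Pool.Agent.Run7.h468.TIG.Stab

set_option autoImplicit false

namespace Run7.h468.TIG

open Module.End

variable {r : ℕ}

/-- the adjoint map -/
noncomputable def adm (X : MM r) : MM r →ₗ[ℝ] MM r :=
  LinearMap.mulLeft ℝ X - LinearMap.mulRight ℝ X

theorem adm_apply (X Y : MM r) : adm X Y = X * Y - Y * X := rfl

theorem mem_ker_adm {X Y : MM r} : Y ∈ LinearMap.ker (adm X) ↔ Y * X = X * Y := by
  rw [LinearMap.mem_ker, adm_apply, sub_eq_zero, eq_comm]

theorem adm_skew {X : MM r} (hX : star X = -X) (Y Z : MM r) :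
    BB r (adm X Y) Z = - BB r Y (adm X Z) := by
  rw [BB_apply, BB_apply, adm_apply, adm_apply, star_sub, star_mul, star_mul, hX,
    ← Complex.neg_re, ← Matrix.trace_neg]
  congr 1
  have h1 : Matrix.trace (X * star Y * Z) = Matrix.trace (star Y * Z * X) := by
    rw [Matrix.mul_assoc, Matrix.trace_mul_comm]
  simp only [neg_mul, mul_neg, add_mul, mul_sub, Matrix.trace_add, Matrix.trace_neg,
    Matrix.trace_sub, ← Matrix.mul_assoc, sub_neg_eq_add, neg_sub]
  rw [h1]
  ring

theorem ker_range_disjoint {X : MM r} (hX : star X = -X) :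
    Disjoint (LinearMap.ker (adm X)) (LinearMap.range (adm X)) := by
  rw [Submodule.disjoint_def]
  rintro _ hy ⟨x, rfl⟩
  apply BB_def
  rw [adm_skew hX, LinearMap.mem_ker.1 hy, map_zero, neg_zero]

theorem ker_range_compl {X : MM r} (hX : star X = -X) :
    IsCompl (LinearMap.ker (adm X)) (LinearMap.range (adm X)) := by
  refine ⟨ker_range_disjoint hX, ?_⟩
  rw [codisjoint_iff]
  apply Submodule.eq_top_of_finrank_eq
  have h1 := Submodule.finrank_sup_add_finrank_inf_eq (LinearMap.ker (adm X)) (LinearMap.range (adm X))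
  rw [(ker_range_disjoint hX).eq_bot, finrank_bot, add_zero] at h1
  rw [h1, add_comm]
  exact LinearMap.finrank_range_add_finrank_ker (adm X)

/-- the generic element argument -/
theorem generic {X H : MM r} (hX : star X = -X) (hXH : X * H = H * X) :
    ∃ ε : ℝ, ε ≠ 0 ∧ LinearMap.ker (adm (X + ε • H)) ≤
      LinearMap.ker (adm X) ⊓ LinearMap.ker (adm H) := by
  have hcomm : ∀ Y, adm X (adm H Y) = adm H (adm X Y) := by
    intro Y
    simp only [adm_apply, mul_sub, sub_mul, ← mul_assoc]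
    rw [hXH, mul_assoc Y X H, hXH]
    simp only [← mul_assoc]
    abel
  have hTR : ∀ x ∈ LinearMap.range (adm X), adm X x ∈ LinearMap.range (adm X) :=
    fun x _ => ⟨x, rfl⟩
  have hSR : ∀ x ∈ LinearMap.range (adm X), adm H x ∈ LinearMap.range (adm X) := by
    rintro _ ⟨y, rfl⟩
    exact ⟨adm H y, hcomm y⟩
  set T : LinearMap.range (adm X) →ₗ[ℝ] LinearMap.range (adm X) := (adm X).restrict hTR with hT
  set S : LinearMap.range (adm X) →ₗ[ℝ] LinearMap.range (adm X) := (adm H).restrict hSR with hS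
  have hTinj : Function.Injective T := by
    rw [injective_iff_map_eq_zero]
    intro x hx
    apply Subtype.ext
    have h1 : adm X (x : MM r) = 0 := congrArg Subtype.val hx
    exact Submodule.disjoint_def.1 (ker_range_disjoint hX) x (LinearMap.mem_ker.2 h1) x.2
  set e := LinearEquiv.ofInjectiveEndo T hTinj with he
  set K : Module.End ℝ (LinearMap.range (adm X)) := (e.symm : _ →ₗ[ℝ] _).comp S with hK
  have hfin : ({μ : ℝ | HasEigenvalue K μ} ∪ {0}).Finite :=
    (Module.End.finite_hasEigenvalue K).union (Set.finite_singleton 0)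
  obtain ⟨μ, hμ⟩ := hfin.exists_notMem
  rw [Set.mem_union, not_or] at hμ
  have hμ0 : μ ≠ 0 := fun h => hμ.2 h
  refine ⟨-(1 / μ), neg_ne_zero.2 (one_div_ne_zero hμ0), ?_⟩
  intro x hx
  have hx' : adm X x + (-(1 / μ)) • adm H x = 0 := by
    have := LinearMap.mem_ker.1 hx
    rw [adm_apply, add_mul, mul_add, smul_mul_assoc, mul_smul_comm] at this
    rw [adm_apply, adm_apply, ← this, smul_sub]
    abel
  have hxt : x ∈ LinearMap.ker (adm X) ⊔ LinearMap.range (adm X) := by
    rw [(ker_range_compl hX).sup_eq_top]; exact Submodule.mem_top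
  obtain ⟨x0, hx0, x1, hx1, hsum⟩ := Submodule.mem_sup.1 hxt
  have hx0' := LinearMap.mem_ker.1 hx0
  set a := (-(1 / μ)) • adm H x0 with ha
  set b := adm X x1 + (-(1 / μ)) • adm H x1 with hb
  have hab : a + b = 0 := by
    rw [← hx', ← hsum, map_add, map_add, hx0', zero_add, smul_add, ha, hb]; abel
  have haK : a ∈ LinearMap.ker (adm X) := by
    rw [LinearMap.mem_ker, ha, map_smul, hcomm, hx0', map_zero, smul_zero]
  have hbR : b ∈ LinearMap.range (adm X) :=
    Submodule.add_mem _ (hTR x1 hx1) (Submodule.smul_mem _ _ (hSR x1 hx1))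
  have hbK : b ∈ LinearMap.ker (adm X) := by
    have : b = -a := by rw [eq_neg_iff_add_eq_zero, add_comm]; exact hab
    rw [this]; exact Submodule.neg_mem _ haK
  have hb0 : b = 0 := Submodule.disjoint_def.1 (ker_range_disjoint hX) b hbK hbR
  have ha0 : a = 0 := by rw [hb0, add_zero] at hab; exact hab
  have hS0 : adm H x0 = 0 := by
    rw [ha] at ha0
    exact (smul_eq_zero.1 ha0).resolve_left (neg_ne_zero.2 (one_div_ne_zero hμ0))
  have hx10 : x1 = 0 := by
    by_contra hne
    apply hμ.1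
    have h1 : S ⟨x1, hx1⟩ = μ • T ⟨x1, hx1⟩ := by
      apply Subtype.ext
      show adm H x1 = μ • adm X x1
      rw [hb] at hb0
      have h2 : adm X x1 = (1 / μ) • adm H x1 := by
        rw [← sub_eq_zero, ← hb0, neg_smul]; abel
      rw [h2, smul_smul, mul_one_div, div_self hμ0, one_smul]
    have h2 : K ⟨x1, hx1⟩ = μ • ⟨x1, hx1⟩ := by
      rw [hK, LinearMap.comp_apply, h1, map_smul]
      congr 1
      exact e.symm_apply_apply ⟨x1, hx1⟩
    exact hasEigenvalue_of_hasEigenvector (x := ⟨x1, hx1⟩) ⟨mem_eigenspace_iff.2 h2, fun h =>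
      hne (congrArg Subtype.val h)⟩
  rw [hx10, add_zero] at hsum
  rw [← hsum]
  exact ⟨hx0, LinearMap.mem_ker.2 hS0⟩

/-- regular elements exist -/
theorem exists_regular (t : Submodule ℝ (MM r)) (hskew : ∀ X ∈ t, star X = -X)
    (hab : ∀ X ∈ t, ∀ Y ∈ t, X * Y = Y * X) :
    ∃ X0 ∈ t, ∀ X : MM r, X * X0 = X0 * X → ∀ H ∈ t, X * H = H * X := by
  classical
  have hne : ∃ n : ℕ, ∃ X ∈ t, Module.finrank ℝ (LinearMap.ker (adm X)) = n :=
    ⟨_, 0, t.zero_mem, rfl⟩
  obtain ⟨X0, hX0, hX0n⟩ := Nat.find_spec hne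
  refine ⟨X0, hX0, fun X hX H hH => ?_⟩
  obtain ⟨ε, hε, hle⟩ := generic (hskew X0 hX0) (hab X0 hX0 H hH)
  have h1 : Nat.find hne ≤ Module.finrank ℝ (LinearMap.ker (adm (X0 + ε • H))) :=
    Nat.find_min' hne ⟨X0 + ε • H, t.add_mem hX0 (t.smul_mem ε hH), rfl⟩
  have h2 : LinearMap.ker (adm (X0 + ε • H)) = LinearMap.ker (adm X0) := by
    apply Submodule.eq_of_le_of_finrank_le (hle.trans inf_le_left)
    rw [hX0n]; exact h1
  have h3 : X ∈ LinearMap.ker (adm (X0 + ε • H)) := by
    rw [h2, mem_ker_adm]; exact hX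
  exact mem_ker_adm.1 (hle h3).2

end Run7.h468.TIG
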