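import Pool.Agent.Run7.h468.TIG.Lie

set_option autoImplicit false

namespace Run7.h468.TIG

open Module.End
open scoped ComplexOrder

attribute [local instance 100] LieRing.ofAssociativeRing

variable {r : ℕ}

/-- The complex span of a real Lie algebra of matrices. -/
def cpl (d : Submodule ℝ (MM r)) (hbr : ∀ X ∈ d, ∀ Y ∈ d, X * Y - Y * X ∈ d) :
    LieSubalgebra ℂ (MM r) where
  carrier := {x | ∃ X ∈ d, ∃ Y ∈ d, x = X + Complex.I • Y}
  add_mem' := by
    rintro _ _ ⟨X, hX, Y, hY, rfl⟩ ⟨X', hX', Y', hY', rfl⟩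
    refine ⟨X + X', d.add_mem hX hX', Y + Y', d.add_mem hY hY', ?_⟩
    rw [smul_add]; abel
  zero_mem' := ⟨0, d.zero_mem, 0, d.zero_mem, by simp⟩
  smul_mem' := by
    rintro c _ ⟨X, hX, Y, hY, rfl⟩
    refine ⟨c.re • X - c.im • Y, d.sub_mem (d.smul_mem _ hX) (d.smul_mem _ hY),
      c.im • X + c.re • Y, d.add_mem (d.smul_mem _ hX) (d.smul_mem _ hY), ?_⟩
    have h1 : ∀ (a : ℝ) (Z : MM r), a • Z = (a : ℂ) • Z := fun a Z => by
      ext i j; simp
    rw [h1, h1, h1, h1]
    have h2 : c = c.re + c.im * Complex.I := (Complex.re_add_im c).symm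
    conv_lhs => rw [h2]
    rw [smul_add, add_smul, add_smul, smul_add, smul_smul, smul_smul, smul_smul, smul_smul]
    have h3 : (c.im * Complex.I) * Complex.I = -(c.im : ℂ) := by
      rw [mul_assoc, Complex.I_mul_I]; ring
    rw [h3, neg_smul, mul_comm Complex.I (c.im : ℂ), mul_comm Complex.I (c.re : ℂ)]
    abel
  lie_mem' := by
    rintro _ _ ⟨X, hX, Y, hY, rfl⟩ ⟨X', hX', Y', hY', rfl⟩
    refine ⟨(X * X' - X' * X) - (Y * Y' - Y' * Y), d.sub_mem (hbr _ hX _ hX') (hbr _ hY _ hY'),
      (X * Y' - Y' * X) + (Y * X' - X' * Y), d.add_mem (hbr _ hX _ hY') (hbr _ hY _ hX'), ?_⟩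
    rw [Ring.lie_def]
    simp only [add_mul, mul_add, smul_mul_assoc, mul_smul_comm, smul_smul, Complex.I_mul_I,
      smul_add, smul_sub, neg_smul, one_smul]
    abel

theorem mem_cpl {d : Submodule ℝ (MM r)} {hbr : ∀ X ∈ d, ∀ Y ∈ d, X * Y - Y * X ∈ d} {x : MM r} :
    x ∈ cpl d hbr ↔ ∃ X ∈ d, ∃ Y ∈ d, x = X + Complex.I • Y := Iff.rfl

/-- conjugation by a unitary matrix -/
noncomputable def cj (u : MM r) : MM r →ₗ[ℂ] MM r :=
  (LinearMap.mulRight ℂ (star u)).comp (LinearMap.mulLeft ℂ u)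

theorem cj_apply (u X : MM r) : cj u X = u * X * star u := rfl

/-- the hermitian form -/
noncomputable def hf (V : LieSubalgebra ℂ (MM r)) : V →ₗ⋆[ℂ] V →ₗ[ℂ] ℂ :=
  LinearMap.mk₂'ₛₗ (starRingEnd ℂ) (RingHom.id ℂ)
    (fun X Y => Matrix.trace (star (X : MM r) * (Y : MM r)))
    (fun X Y Z => by
      show Matrix.trace (star ((X : MM r) + (Y : MM r)) * (Z : MM r)) = _
      rw [star_add, add_mul, Matrix.trace_add])
    (fun c X Y => by
      show Matrix.trace (star (c • (X : MM r)) * (Y : MM r)) = _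
      rw [star_smul, smul_mul_assoc, Matrix.trace_smul]; rfl)
    (fun X Y Z => by
      show Matrix.trace (star (X : MM r) * ((Y : MM r) + (Z : MM r))) = _
      rw [mul_add, Matrix.trace_add])
    (fun c X Y => by
      show Matrix.trace (star (X : MM r) * (c • (Y : MM r))) = _
      rw [mul_smul_comm, Matrix.trace_smul]; rfl)

theorem hf_apply (V : LieSubalgebra ℂ (MM r)) (X Y : V) :
    hf V X Y = Matrix.trace (star (X : MM r) * (Y : MM r)) := rfl

theorem tr_cj (u : MM r) (hu : star u * u = 1) (x y : MM r) :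
    Matrix.trace (star (cj u x) * cj u y) = Matrix.trace (star x * y) := by
  rw [cj_apply, cj_apply, star_mul, star_mul, star_star]
  calc Matrix.trace (u * (star x * star u) * (u * y * star u))
      = Matrix.trace (u * (star x * (star u * u) * y * star u)) := by
        congr 1; noncomm_ring
    _ = Matrix.trace ((star x * (star u * u) * y * star u) * u) :=
        Matrix.trace_mul_comm _ _
    _ = Matrix.trace (star x * y) := by
        rw [hu, mul_one, Matrix.mul_assoc _ (star u) u, hu, mul_one]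

/-- If a compact Lie algebra of matrices is perfect and a unitary matrix acts on it without fixed
vectors, it vanishes. -/
theorem perf_zero (d : Submodule ℝ (MM r)) (hskew : ∀ X ∈ d, star X = -X)
    (hbr : ∀ X ∈ d, ∀ Y ∈ d, X * Y - Y * X ∈ d)
    (hperf : d ≤ Submodule.span ℝ {Z : MM r | ∃ X ∈ d, ∃ Y ∈ d, Z = X * Y - Y * X})
    (u : MM r) (hu : star u * u = 1) (hud : ∀ X ∈ d, u * X * star u ∈ d)
    (hfix : ∀ X ∈ d, u * X * star u = X → X = 0) : ∀ X ∈ d, X = 0 := by
  have hmem : ∀ X ∈ d, X ∈ cpl d hbr := fun X hX => ⟨X, hX, 0, d.zero_mem, by simp⟩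
  have hstab : ∀ x ∈ (cpl d hbr).toSubmodule, cj u x ∈ (cpl d hbr).toSubmodule := by
    rintro _ ⟨X, hX, Y, hY, rfl⟩
    refine ⟨u * X * star u, hud X hX, u * Y * star u, hud Y hY, ?_⟩
    rw [cj_apply, mul_add, add_mul, mul_smul_comm, smul_mul_assoc]
  have hI : ∀ Z : MM r, star (Complex.I • Z) = -(Complex.I • star Z) := by
    intro Z
    rw [star_smul]
    simp
  have hk := krek_unitary (L := cpl d hbr) ((cj u).restrict hstab)
    (by
      intro x y
      apply Subtype.ext
      show cj u (⁅x, y⁆ : cpl d hbr) = ⁅cj u x, cj u y⁆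
      rw [LieSubalgebra.coe_bracket, Ring.lie_def, Ring.lie_def, cj_apply, cj_apply, cj_apply,
        mul_sub, sub_mul]
      congr 1
      · calc u * ((x : MM r) * (y : MM r)) * star u = u * x * 1 * y * star u := by noncomm_ring
          _ = u * x * (star u * u) * y * star u := by rw [hu]
          _ = _ := by noncomm_ring
      · calc u * ((y : MM r) * (x : MM r)) * star u = u * y * 1 * x * star u := by noncomm_ring
          _ = u * y * (star u * u) * x * star u := by rw [hu]
          _ = _ := by noncomm_ring)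
    (hf (cpl d hbr))
    (by
      intro x hx
      apply Subtype.ext
      have h1 : Matrix.trace (star (x : MM r) * (x : MM r)) = 0 := hx
      rw [Matrix.star_eq_conjTranspose] at h1
      exact Matrix.trace_conjTranspose_mul_self_eq_zero_iff.1 h1)
    (by
      intro x y
      exact tr_cj u hu x y)
    (by
      intro x hx
      obtain ⟨X, hX, Y, hY, hxy⟩ := x.2
      have h1 : cj u (x : MM r) = x := congrArg Subtype.val hx
      rw [hxy, cj_apply, mul_add, add_mul, mul_smul_comm, smul_mul_assoc] at h1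
      set P := u * X * star u - X with hP
      set Q := u * Y * star u - Y with hQ
      have hPs : star P = -P := by
        rw [hP, star_sub, hskew _ (hud X hX), hskew _ hX]; abel
      have hQs : star Q = -Q := by
        rw [hQ, star_sub, hskew _ (hud Y hY), hskew _ hY]; abel
      have h2 : P = -(Complex.I • Q) := by
        rw [hP, hQ, smul_sub, eq_neg_iff_add_eq_zero]
        rw [← sub_eq_zero] at h1
        rw [← h1]; abel
      have h3 : star P = P := by
        conv_lhs => rw [h2]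
        rw [star_neg, hI, hQs, h2, smul_neg]; abel
      have h4 : P = 0 := by
        rw [hPs] at h3
        have h5 : (2 : ℂ) • P = 0 := by
          rw [two_smul]
          nth_rw 1 [← h3]
          abel
        exact (smul_eq_zero.1 h5).resolve_left two_ne_zero
      have h5 : Q = 0 := by
        rw [h4] at h2
        have h6 : Complex.I • Q = 0 := by
          rw [eq_comm, neg_eq_zero] at h2; exact h2
        exact (smul_eq_zero.1 h6).resolve_left Complex.I_ne_zero
      have hX0 := hfix X hX (sub_eq_zero.1 h4)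
      have hY0 := hfix Y hY (sub_eq_zero.1 h5)
      apply Subtype.ext
      rw [hxy, hX0, hY0]
      simp)
    (by
      intro W hW
      have h1 : ∀ Z ∈ Submodule.span ℝ {Z : MM r | ∃ X ∈ d, ∃ Y ∈ d, Z = X * Y - Y * X},
          ∀ hZ : Z ∈ cpl d hbr, (⟨Z, hZ⟩ : cpl d hbr) ∈ W := by
        intro Z hZ
        have hle : Submodule.span ℝ {Z : MM r | ∃ X ∈ d, ∃ Y ∈ d, Z = X * Y - Y * X} ≤ d := by
          rw [Submodule.span_le]
          rintro _ ⟨X, hX, Y, hY, rfl⟩
          exact hbr X hX Y hY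
        induction hZ using Submodule.span_induction with
        | mem Z hZ =>
          obtain ⟨P, hP, Q, hQ, rfl⟩ := hZ
          intro _
          exact hW ⟨P, hmem P hP⟩ ⟨Q, hmem Q hQ⟩
        | zero => intro _; exact W.zero_mem
        | add P Q hPs hQs hP hQ =>
          intro _
          exact W.add_mem (hP (hmem P (hle hPs))) (hQ (hmem Q (hle hQs)))
        | smul c P hPs hP =>
          intro hc
          have h2 := W.smul_mem (c : ℂ) (hP (hmem P (hle hPs)))
          have h3 : (⟨c • P, hc⟩ : cpl d hbr) = (c : ℂ) • ⟨P, hmem P (hle hPs)⟩ := by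
            apply Subtype.ext
            ext i j
            simp
          rw [h3]; exact h2
      rw [eq_top_iff]
      rintro ⟨x, hx⟩ _
      obtain ⟨X, hX, Y, hY, rfl⟩ := hx
      exact W.add_mem (h1 X (hperf hX) (hmem X hX))
        (W.smul_mem Complex.I (h1 Y (hperf hY) (hmem Y hY))))
  intro X hX
  exact congrArg Subtype.val (hk ⟨X, hmem X hX⟩)

/-- A unitary matrix which normalizes a compact Lie algebra normalizes one of its maximal abelian
subspaces. -/
theorem stable_max (g : Submodule ℝ (MM r)) (hskew : ∀ X ∈ g, star X = -X)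
    (hbr : ∀ X ∈ g, ∀ Y ∈ g, X * Y - Y * X ∈ g)
    (u : MM r) (hu : star u * u = 1) (hu' : u * star u = 1) (hug : ∀ X ∈ g, u * X * star u ∈ g)
    (hug' : ∀ X ∈ g, star u * X * u ∈ g) :
    ∃ t : Submodule ℝ (MM r), MaxAb g t ∧ (∀ X ∈ t, u * X * star u ∈ t) ∧
      (∀ X ∈ t, star u * X * u ∈ t) := by
  let F : Submodule ℝ (MM r) :=
    { carrier := {X | X ∈ g ∧ u * X * star u = X}
      add_mem' := by
        rintro X Y ⟨hX, hX'⟩ ⟨hY, hY'⟩
        refine ⟨g.add_mem hX hY, ?_⟩
        rw [mul_add, add_mul, hX', hY']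
      zero_mem' := ⟨g.zero_mem, by simp⟩
      smul_mem' := by
        rintro c X ⟨hX, hX'⟩
        refine ⟨g.smul_mem c hX, ?_⟩
        rw [mul_smul_comm, smul_mul_assoc, hX'] }
  obtain ⟨t0, ⟨ht0F, ht0ab⟩, ht0max⟩ := WellFounded.has_min
    (wellFounded_gt (α := Submodule ℝ (MM r)))
    {t | t ≤ F ∧ ∀ X ∈ t, ∀ Y ∈ t, X * Y = Y * X}
    ⟨⊥, bot_le, fun X hX Y hY => by
      rw [Submodule.mem_bot] at hX hY
      rw [hX, hY]⟩
  have hmax : ∀ X ∈ F, (∀ Y ∈ t0, X * Y = Y * X) → X ∈ t0 := by
    intro X hX hXY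
    by_contra hne
    refine ht0max (t0 ⊔ Submodule.span ℝ {X}) ⟨sup_le ht0F ?_, ?_⟩ ?_
    · rw [Submodule.span_singleton_le_iff_mem]; exact hX
    · intro P hP Q hQ
      obtain ⟨P1, hP1, P2, hP2, rfl⟩ := Submodule.mem_sup.1 hP
      obtain ⟨Q1, hQ1, Q2, hQ2, rfl⟩ := Submodule.mem_sup.1 hQ
      obtain ⟨a, rfl⟩ := Submodule.mem_span_singleton.1 hP2
      obtain ⟨b, rfl⟩ := Submodule.mem_span_singleton.1 hQ2
      have h1 := ht0ab P1 hP1 Q1 hQ1
      have h2 := hXY P1 hP1
      have h3 := hXY Q1 hQ1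
      simp only [add_mul, mul_add, smul_mul_assoc, mul_smul_comm, smul_add]
      rw [h1, h2, h3, smul_comm a b]
      abel
    · refine lt_of_le_of_ne le_sup_left fun h => hne ?_
      rw [h]
      exact Submodule.mem_sup_right (Submodule.mem_span_singleton_self X)
  let z : Submodule ℝ (MM r) :=
    { carrier := {X | X ∈ g ∧ ∀ Y ∈ t0, X * Y = Y * X}
      add_mem' := by
        rintro X Y ⟨hX, hX'⟩ ⟨hY, hY'⟩
        refine ⟨g.add_mem hX hY, fun Z hZ => ?_⟩
        rw [mul_add, add_mul, hX' Z hZ, hY' Z hZ]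
      zero_mem' := ⟨g.zero_mem, by simp⟩
      smul_mem' := by
        rintro c X ⟨hX, hX'⟩
        refine ⟨g.smul_mem c hX, fun Z hZ => ?_⟩
        rw [mul_smul_comm, smul_mul_assoc, hX' Z hZ] }
  have hzg : z ≤ g := fun X hX => hX.1
  have hzs : ∀ X ∈ z, star X = -X := fun X hX => hskew X (hzg hX)
  have hzbr : ∀ X ∈ z, ∀ Y ∈ z, X * Y - Y * X ∈ z := by
    rintro X ⟨hX, hX'⟩ Y ⟨hY, hY'⟩
    refine ⟨hbr X hX Y hY, fun Z hZ => ?_⟩
    have h1 := hX' Z hZ
    have h2 := hY' Z hZ
    rw [sub_mul, mul_sub, mul_assoc, mul_assoc, h1, h2, ← mul_assoc, ← mul_assoc, h1, h2,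
      mul_assoc, mul_assoc]
  have ht0z : t0 ≤ z := fun X hX => ⟨(ht0F hX).1, fun Y hY => ht0ab X hX Y hY⟩
  have hut : ∀ Y ∈ t0, u * Y * star u = Y := fun Y hY => (ht0F hY).2
  have hut' : ∀ Y ∈ t0, star u * Y * u = Y := by
    intro Y hY
    conv_lhs => rw [← hut Y hY]
    calc star u * (u * Y * star u) * u = (star u * u) * Y * (star u * u) := by noncomm_ring
      _ = Y := by rw [hu]; noncomm_ring
  have hzu : ∀ X ∈ z, u * X * star u ∈ z := by
    rintro X ⟨hX, hX'⟩
    refine ⟨hug X hX, fun Y hY => ?_⟩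
    have h1 := hX' Y hY
    calc u * X * star u * Y = u * X * star u * (u * Y * star u) := by rw [hut Y hY]
      _ = u * X * (star u * u) * Y * star u := by noncomm_ring
      _ = u * (X * Y) * star u := by rw [hu]; noncomm_ring
      _ = u * (Y * X) * star u := by rw [h1]
      _ = u * Y * (star u * u) * X * star u := by rw [hu]; noncomm_ring
      _ = (u * Y * star u) * (u * X * star u) := by noncomm_ring
      _ = Y * (u * X * star u) := by rw [hut Y hY]
  have hzu' : ∀ X ∈ z, star u * X * u ∈ z := by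
    rintro X ⟨hX, hX'⟩
    refine ⟨hug' X hX, fun Y hY => ?_⟩
    have h1 := hX' Y hY
    calc star u * X * u * Y = star u * X * u * (star u * Y * u) := by rw [hut' Y hY]
      _ = star u * X * (u * star u) * Y * u := by noncomm_ring
      _ = star u * (X * Y) * u := by rw [hu']; noncomm_ring
      _ = star u * (Y * X) * u := by rw [h1]
      _ = star u * Y * (u * star u) * X * u := by rw [hu']; noncomm_ring
      _ = (star u * Y * u) * (star u * X * u) := by noncomm_ring
      _ = Y * (star u * X * u) := by rw [hut' Y hY]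
  set d := Submodule.span ℝ {Z : MM r | ∃ X ∈ z, ∃ Y ∈ z, Z = X * Y - Y * X} with hd
  have hdz : d ≤ z := by
    rw [hd, Submodule.span_le]
    rintro _ ⟨X, hX, Y, hY, rfl⟩
    exact hzbr X hX Y hY
  have hd0 : ∀ X ∈ d, X = 0 := by
    refine perf_zero d (fun X hX => hzs X (hdz hX))
      (fun X hX Y hY => Submodule.subset_span ⟨X, hdz hX, Y, hdz hY, rfl⟩) ?_ u hu ?_ ?_
    · rw [hd, Submodule.span_le]
      rintro _ ⟨X, hX, Y, hY, rfl⟩
      obtain ⟨X1, hX1, X0, hX0, hXc, rfl⟩ := decomp z hzs hzbr X hX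
      obtain ⟨Y1, hY1, Y0, hY0, hYc, rfl⟩ := decomp z hzs hzbr Y hY
      apply Submodule.subset_span
      refine ⟨X1, hX1, Y1, hY1, ?_⟩
      have h1 := hXc Y1 (hdz hY1)
      have h2 := hXc Y0 hY0
      have h3 := hYc X1 (hdz hX1)
      simp only [add_mul, mul_add]
      rw [h1, h2, h3]
      abel
    · intro X hX
      induction hX using Submodule.span_induction with
      | mem Z hZ =>
        obtain ⟨P, hP, Q, hQ, rfl⟩ := hZ
        apply Submodule.subset_span
        refine ⟨u * P * star u, hzu P hP, u * Q * star u, hzu Q hQ, ?_⟩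
        calc u * (P * Q - Q * P) * star u = u * P * 1 * Q * star u - u * Q * 1 * P * star u := by
              noncomm_ring
          _ = u * P * (star u * u) * Q * star u - u * Q * (star u * u) * P * star u := by rw [hu]
          _ = _ := by noncomm_ring
      | zero => simp
      | add P Q _ _ hP hQ =>
        rw [mul_add, add_mul]; exact d.add_mem hP hQ
      | smul c P _ hP =>
        rw [mul_smul_comm, smul_mul_assoc]; exact d.smul_mem c hP
    · intro X hX hXu
      have h1 : X ∈ t0 := hmax X ⟨(hdz hX).1, hXu⟩ (hdz hX).2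
      exact central_zero z hzs X hX (hdz hX) fun Y hY => (hY.2 X h1).symm
  refine ⟨z, ⟨hzg, fun X hX => ⟨fun hXz Y hY => ?_, fun h => ⟨hX, fun Y hY => h Y (ht0z hY)⟩⟩⟩,
    hzu, hzu'⟩
  exact sub_eq_zero.1 (hd0 _ (Submodule.subset_span ⟨X, hXz, Y, hY, rfl⟩))

end Run7.h468.TIG
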